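import Pool.Agent.Helper8.SPV.Stmts
import Pool.Agent.Helper8.SPV.PLib

/-! # WREG: regular differentials -/

set_option autoImplicit false

namespace Pool.Agent.Helper8.SPV

open Pl

/-- `δ f` is regular (as a differential) where `f` is -/
theorem WREG_reg (hPL1 : ST_PL1) (hDER1 : ST_DER1) {k K : Type} [Field k] [IsAlgClosed k]
    [CharZero k] [Field K] [Algebra k K] (hFF : IsFF k K) (δ : Derivation k K K) (hδ : δ ≠ 0)
    (p : Pl k K) (f : K) (hf : f ∈ p.O) : p.Ge (-p.rr δ) (δ f) := by
  have hL := hPL1 k K hFF p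
  obtain ⟨c, hc⟩ := hL.res_ge f ((hL.mem_iff_ge f).1 hf)
  have h1 : δ f = δ (f - algebraMap k K c) := by
    rw [map_sub, Derivation.map_algebraMap, sub_zero]
  rw [h1]
  rcases hc with h0 | hc
  · rw [h0, map_zero]
    exact hL.ge_zero _
  · exact hL.ge_mono ((hDER1 k K hFF).2.2.1 δ hδ p _) (by omega)

theorem st_WREG (hPL1 : ST_PL1) (hPL7 : ST_PL7) (hPL5 : ST_PL5) (hDER1 : ST_DER1)
    (hLFIN : ST_LFIN) : ST_WREG := by
  intro k K _ _ _ _ _ hFF δ hδ
  haveI : CharZero K := charZero_of_injective_algebraMap (algebraMap k K).injective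
  refine ⟨?_, ?_, ?_⟩
  · intro T W hTW hT p
    have hL := hPL1 k K hFF p
    have hT0 : T ≠ 0 := by
      rintro rfl
      exact hT isAlgebraic_zero
    have hδT : δ T ≠ 0 := by
      intro h0
      obtain ⟨c, hc⟩ := (hDER1 k K hFF).1 δ hδ T h0
      exact hT (by rw [hc]; exact isAlgebraic_algebraMap c)
    have hrel : 2 * W * δ W = 3 * T ^ 2 * δ T := by
      have h1 := congrArg δ hTW
      rw [map_add, Derivation.leibniz_pow, Derivation.leibniz_pow,
        Derivation.map_one_eq_zero] at h1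
      simp only [nsmul_eq_mul, smul_eq_mul, Nat.add_one_sub_one, pow_one, Nat.cast_ofNat] at h1
      linear_combination h1
    have hW0 : W ≠ 0 := by
      rintro rfl
      rw [mul_zero, zero_mul] at hrel
      exact mul_ne_zero (mul_ne_zero (by norm_num) (pow_ne_zero 2 hT0)) hδT hrel.symm
    have h2 : p.ord (2 : K) = 0 := by exact_mod_cast hL.ord_natCast 2
    have h3 : p.ord (3 : K) = 0 := by exact_mod_cast hL.ord_natCast 3
    have h2K : (2 : K) ≠ 0 := by norm_num
    have h3K : (3 : K) ≠ 0 := by norm_num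
    have hcube : p.ord (T ^ 3) = 3 * p.ord T := by
      rw [hL.ord_pow]; push_cast; rfl
    have hsq : p.ord (W ^ 2) = 2 * p.ord W := by
      rw [hL.ord_pow]; push_cast; rfl
    by_cases hp : T ∈ p.O
    · have hTo := (hL.mem_iff _ hT0).1 hp
      have hW2 : W ^ 2 ∈ p.O := by
        rw [hTW]
        exact p.O.add_mem _ _ (p.O.pow_mem hp 3) p.O.one_mem
      have hWo : 0 ≤ p.ord W := by
        have := (hL.mem_iff _ (pow_ne_zero 2 hW0)).1 hW2
        omega
      by_cases hW1 : p.ord W = 0
      · rcases WREG_reg hPL1 hDER1 hFF δ hδ p T hp with h0 | h0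
        · exact absurd h0 hδT
        · right
          rw [hL.ord_div _ _ hδT (mul_ne_zero h2K hW0), hL.ord_mul _ _ h2K hW0, h2, hW1]
          omega
      · have hT1 : p.ord T = 0 := by
          have h4 := hL.ord_add_of_lt (-1) (W ^ 2) (by norm_num) (Or.inr (by
            rw [hL.ord_neg_one]; omega))
          rw [show (-1 : K) + W ^ 2 = T ^ 3 by rw [hTW]; ring, hL.ord_neg_one, hcube] at h4
          omega
        have hWm : W ∈ p.O := (hL.mem_iff _ hW0).2 hWo
        have h5 : δ T / (2 * W) = δ W / (3 * T ^ 2) := by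
          field_simp
          linear_combination -hrel
        have hδW : δ W ≠ 0 := by
          intro h0
          rw [h0, mul_zero] at hrel
          exact mul_ne_zero (mul_ne_zero (by norm_num) (pow_ne_zero 2 hT0)) hδT hrel.symm
        rw [h5]
        rcases WREG_reg hPL1 hDER1 hFF δ hδ p W hWm with h0 | h0
        · exact absurd h0 hδW
        · right
          rw [hL.ord_div _ _ hδW (mul_ne_zero h3K (pow_ne_zero 2 hT0)),
            hL.ord_mul _ _ h3K (pow_ne_zero 2 hT0), h3, hL.ord_pow, hT1]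
          omega
    · have hTo : p.ord T < 0 := by
        rw [hL.mem_iff _ hT0] at hp
        omega
      have h4 := hL.ord_add_of_lt (T ^ 3) 1 (pow_ne_zero 3 hT0) (Or.inr (by
        rw [hL.ord_one]; omega))
      rw [← hTW] at h4
      obtain ⟨h5, h6⟩ := (hDER1 k K hFF).2.2.2 δ hδ p T (by omega)
      right
      rw [hL.ord_div _ _ hδT (mul_ne_zero h2K hW0), hL.ord_mul _ _ h2K hW0, h2, h6]
      omega
  · obtain ⟨V, hV, hV'⟩ := hLFIN k K hFF (fun p => p.rr δ) (hPL7 k K hFF δ hδ)
    exact ⟨V, hV, hV'⟩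
  · intro τ hτ
    refine hPL5 k K hFF τ fun p => ?_
    have hL := hPL1 k K hFF p
    by_contra h
    by_cases h0 : τ = 0
    · exact h (h0 ▸ p.O.zero_mem)
    rw [hL.mem_iff _ h0] at h
    obtain ⟨h5, h6⟩ := (hDER1 k K hFF).2.2.2 δ hδ p τ (by omega)
    rcases hτ p with h7 | h7
    · exact h5 h7
    · omega

end Pool.Agent.Helper8.SPV
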