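import Pool.Agent.Helper8.SPV.Stmts
import Pool.Agent.Helper8.SPV.PLib

/-! # Z1: if the degree is large then `ζ = 0` -/

set_option autoImplicit false

namespace Pool.Agent.Helper8.SPV

open Pl

/-- weighted comparison of three finitely supported sums -/
theorem Z1_sum {ι : Type} (f r m : ι → ℤ) (hf : {p | f p ≠ 0}.Finite) (hr : {p | r p ≠ 0}.Finite)
    (hm : {p | m p ≠ 0}.Finite) (a c : ℤ) (h : ∀ p, m p ≤ a * f p + c * r p) :
    ∑ᶠ p, m p ≤ a * ∑ᶠ p, f p + c * ∑ᶠ p, r p := by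
  classical
  let S : Finset ι := hf.toFinset ∪ hr.toFinset ∪ hm.toFinset
  have h1 : ∑ᶠ p, f p = ∑ p ∈ S, f p := finsum_eq_sum_of_support_subset _ (by
    intro p hp
    simp only [S, Finset.coe_union, Set.Finite.coe_toFinset, Set.mem_union, Set.mem_setOf_eq]
    exact Or.inl (Or.inl hp))
  have h2 : ∑ᶠ p, r p = ∑ p ∈ S, r p := finsum_eq_sum_of_support_subset _ (by
    intro p hp
    simp only [S, Finset.coe_union, Set.Finite.coe_toFinset, Set.mem_union, Set.mem_setOf_eq]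
    exact Or.inl (Or.inr hp))
  have h3 : ∑ᶠ p, m p = ∑ p ∈ S, m p := finsum_eq_sum_of_support_subset _ (by
    intro p hp
    simp only [S, Finset.coe_union, Set.Finite.coe_toFinset, Set.mem_union, Set.mem_setOf_eq]
    exact Or.inr hp)
  rw [h1, h2, h3, Finset.mul_sum, Finset.mul_sum, ← Finset.sum_add_distrib]
  exact Finset.sum_le_sum fun p _ => h p

/-- `(δ z)⁻¹ f ∈ O` gives a lower bound for the order of `f` -/
theorem Z1_bound {k K : Type} [Field k] [Field K] [Algebra k K] {p : Pl k K} (h : p.Laws)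
    (δ : Derivation k K K) (hδ : δ p.z ≠ 0) (u f : K) (hu : u ≠ 0) (hf : f ≠ 0)
    (h1 : (δ p.z)⁻¹ * (u * f) ∈ p.O) : -p.rr δ - p.ord u ≤ p.ord f := by
  rw [h.mem_iff _ (mul_ne_zero (inv_ne_zero hδ) (mul_ne_zero hu hf)),
    h.ord_mul _ _ (inv_ne_zero hδ) (mul_ne_zero hu hf), h.ord_inv, h.ord_mul _ _ hu hf] at h1
  unfold Pl.rr
  omega

theorem st_Z1 (hPL1 : ST_PL1) (hPL2 : ST_PL2) (hPL3 : ST_PL3) (hPL7 : ST_PL7) (hZ1F : ST_Z1F)
    (hZ1I : ST_Z1I) (hCORR : ST_CORR) (hEINF : ST_EINF) : ST_Z1 := by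
  intro k0 k K _ _ _ _ _ _ _ _ _ _ b T W X Y d hBD hFF hPt hT hlt j
  by_contra hζ
  haveI : CharZero K := charZero_of_injective_algebraMap (algebraMap k K).injective
  have hT0 : T ≠ 0 := by
    rintro rfl
    exact hT isAlgebraic_zero
  have hδ : d.δ ≠ 0 := by
    intro h0
    have h1 := d.δW
    rw [h0] at h1
    simp at h1
    exact hT0 h1
  have hm : {p : Pl k K | max 0 (-p.ord T) ≠ 0}.Finite := by
    refine (hPL2 k K hFF T hT0).subset fun p hp => ?_
    simp only [Set.mem_setOf_eq] at hp ⊢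
    intro h
    exact hp (by rw [h]; simp)
  have key := Z1_sum (fun p : Pl k K => p.ord (zeta d X Y j)) (fun p => p.rr d.δ)
    (fun p => max 0 (-p.ord T)) (hPL2 k K hFF _ hζ) (hPL7 k K hFF d.δ hδ) hm 2 2 (by
      intro p
      have hL := hPL1 k K hFF p
      have hz := (hCORR k0 k K b T W d hFF hPt.e1 hT p).1
      by_cases hp : T ∈ p.O
      · have h1 := Z1_bound hL d.δ hz 1 _ one_ne_zero hζ (by
          rw [one_mul]
          exact hZ1F k0 k K b T W X Y d hBD hFF hPt hT p hp j)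
        rw [hL.ord_one] at h1
        rw [hL.mem_iff _ hT0] at hp
        omega
      · obtain ⟨e, he, h2, h3, h4, -⟩ := hEINF k K b T W d.δ hFF hPt.e1 hT d.δT d.δW p hp
        have hTW : T / W ≠ 0 := by
          intro h0
          rw [h0, ord_zero] at h4
          omega
        have h1 := Z1_bound hL d.δ hz _ _ (inv_ne_zero hTW) hζ
          (hZ1I k0 k K b T W X Y d hBD hFF hPt hT p hp j)
        rw [hL.ord_inv, h4] at h1
        omega)
  rw [hPL3 k K hFF _ hζ] at key
  unfold Pl.kap Pl.poles at hlt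
  omega

end Pool.Agent.Helper8.SPV
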