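import Pool.Agent.Helper22.SPV.Z1

/-! # Z2: if the degree is large then `ψ = 0` -/

set_option autoImplicit false

namespace Pool.Agent.Helper8.SPV

open Pl

theorem st_Z2 (hPL1 : ST_PL1) (hPL2 : ST_PL2) (hPL3 : ST_PL3) (hPL7 : ST_PL7) (hZ2F : ST_Z2F)
    (hZ2I : ST_Z2I) (hCORR : ST_CORR) (hEINF : ST_EINF) : ST_Z2 := by
  intro k0 k K _ _ _ _ _ _ _ _ _ _ b T W X Y d hBD hFF hPt hT hlt hzeta
  by_contra hψ
  haveI : CharZero K := charZero_of_injective_algebraMap (algebraMap k K).injective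
  have hT0 : T ≠ 0 := by
    rintro rfl
    exact hT isAlgebraic_zero
  have hδ : d.δ ≠ 0 := by
    intro h0
    have h1 := d.δW
    rw [h0] at h1
    simp at h1
    exact hT0 h1
  have hm : {p : Pl k K | max 0 (-p.ord T) ≠ 0}.Finite := by
    refine (hPL2 k K hFF T hT0).subset fun p hp => ?_
    simp only [Set.mem_setOf_eq] at hp ⊢
    intro h
    exact hp (by rw [h]; simp)
  have hkap : 0 ≤ Pl.kap d.δ :=
    finsum_nonneg fun p => (hCORR k0 k K b T W d hFF hPt.e1 hT p).2.2.1
  have key := Z1_sum (fun p : Pl k K => p.ord (psi d X Y)) (fun p => p.rr d.δ)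
    (fun p => max 0 (-p.ord T)) (hPL2 k K hFF _ hψ) (hPL7 k K hFF d.δ hδ) hm 1 1 (by
      intro p
      have hL := hPL1 k K hFF p
      have hz := (hCORR k0 k K b T W d hFF hPt.e1 hT p).1
      by_cases hp : T ∈ p.O
      · have h1 := Z1_bound hL d.δ hz 1 _ one_ne_zero hψ (by
          rw [one_mul]
          exact hZ2F k0 k K b T W X Y d hBD hFF hPt hT p hp)
        rw [hL.ord_one] at h1
        rw [hL.mem_iff _ hT0] at hp
        omega
      · obtain ⟨e, he, h2, h3, h4, -⟩ := hEINF k K b T W d.δ hFF hPt.e1 hT d.δT d.δW p hp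
        have hTW : T / W ≠ 0 := by
          intro h0
          rw [h0, ord_zero] at h4
          omega
        have h1 := Z1_bound hL d.δ hz _ _ (pow_ne_zero 2 (inv_ne_zero hTW)) hψ
          (hZ2I k0 k K b T W X Y d hBD hFF hPt hT hzeta p hp)
        rw [hL.ord_pow, hL.ord_inv, h4] at h1
        push_cast at h1
        omega)
  rw [hPL3 k K hFF _ hψ] at key
  unfold Pl.kap at hlt hkap
  unfold Pl.poles at hlt
  omega

end Pool.Agent.Helper8.SPV
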